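import Pool.Agent.Y187.WQ.Stm

/-!
Limits along an exhausting sequence of projections.
-/

set_option autoImplicit false

open scoped ComplexOrder InnerProductSpace
open Finset Filter

noncomputable section

namespace Pool.Agent.Y797.WQ

open Pool.Agent.Y187.WQ
open H759R2.Kad (IsFac IsPr Prj Fnt)

section aux

variable {H : Type} [NormedAddCommGroup H] [InnerProductSpace ℂ H] [CompleteSpace H]

theorem inner_op {ι : Type} {l : Filter ι} {y : ι → (H →L[ℂ] H)} {z : H →L[ℂ] H} {r : ℝ}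
    (hr : ∀ n, ‖y n‖ ≤ r) {ξ η : H} (hw : Tendsto (fun n => ⟪η, y n ξ⟫_ℂ) l (nhds ⟪η, z ξ⟫_ℂ))
    {u v : ι → H} (hu : Tendsto u l (nhds ξ)) (hv : Tendsto v l (nhds η)) :
    Tendsto (fun n => ⟪v n, y n (u n)⟫_ℂ) l (nhds ⟪η, z ξ⟫_ℂ) := by
  have h1 : Tendsto (fun n => ⟪v n - η, y n (u n)⟫_ℂ) l (nhds 0) := by
    rw [tendsto_zero_iff_norm_tendsto_zero]
    have h2 : Tendsto (fun n => ‖v n - η‖ * (r * ‖u n‖)) l (nhds (‖η - η‖ * (r * ‖ξ‖))) :=
      ((hv.sub_const η).norm).mul ((hu.norm).const_mul r)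
    rw [sub_self, norm_zero, zero_mul] at h2
    refine squeeze_zero (fun n => norm_nonneg _) (fun n => ?_) h2
    refine (norm_inner_le_norm _ _).trans ?_
    refine mul_le_mul_of_nonneg_left ?_ (norm_nonneg _)
    exact ((y n).le_opNorm _).trans (mul_le_mul_of_nonneg_right (hr n) (norm_nonneg _))
  have h3 : Tendsto (fun n => ⟪η, y n (u n - ξ)⟫_ℂ) l (nhds 0) := by
    rw [tendsto_zero_iff_norm_tendsto_zero]
    have h2 : Tendsto (fun n => ‖η‖ * (r * ‖u n - ξ‖)) l (nhds (‖η‖ * (r * ‖ξ - ξ‖))) :=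
      (((hu.sub_const ξ).norm).const_mul r).const_mul _
    rw [sub_self, norm_zero, mul_zero, mul_zero] at h2
    refine squeeze_zero (fun n => norm_nonneg _) (fun n => ?_) h2
    refine (norm_inner_le_norm _ _).trans ?_
    refine mul_le_mul_of_nonneg_left ?_ (norm_nonneg _)
    exact ((y n).le_opNorm _).trans (mul_le_mul_of_nonneg_right (hr n) (norm_nonneg _))
  have h4 := (h1.add h3).add hw
  rw [add_zero, zero_add] at h4
  refine h4.congr fun n => ?_
  rw [inner_sub_left, map_sub, inner_sub_right]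
  ring

theorem pr_inner {p : H →L[ℂ] H} (hp : IsPr p) (ξ η : H) : ⟪η, p ξ⟫_ℂ = ⟪p η, ξ⟫_ℂ := by
  have h := ContinuousLinearMap.adjoint_inner_left p ξ η
  rw [← ContinuousLinearMap.star_eq_adjoint, hp.1] at h
  exact h.symm

end aux

theorem t_limit : W_wl → W_limit := by
  intro hwl H _ _ _ N M x q y hq hmn hs hy
  obtain ⟨U, z, hU, hzM, hz, hlim⟩ := hwl H M y ‖x‖ (fun n => (hy n).1) (fun n => (hy n).2.1)
  refine ⟨z, hzM, ?_, ?_⟩
  · intro n ξ η ε hε
    have h1 : ∀ i : Fin n, ∀ᶠ m in (U : Filter ℕ), ‖⟪η i, (y m - z) (ξ i)⟫_ℂ‖ < ε / 2 := by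
      intro i
      have h := hlim (ξ i) (η i)
      rw [Metric.tendsto_nhds] at h
      filter_upwards [h (ε / 2) (by positivity)] with m hm
      rw [dist_eq_norm] at hm
      rwa [ContinuousLinearMap.sub_apply, inner_sub_right]
    obtain ⟨m, hm⟩ := (Filter.eventually_all.2 h1).exists
    obtain ⟨w, hw, hw'⟩ := (hy m).2.2.1 n ξ η (ε / 2) (by positivity)
    refine ⟨w, hw, fun i => ?_⟩
    have h2 : (w - z) (ξ i) = (w - y m) (ξ i) + (y m - z) (ξ i) := by simp
    rw [h2, inner_add_right]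
    calc _ ≤ _ := norm_add_le _ _
      _ < ε / 2 + ε / 2 := add_lt_add (hw' i) (hm i)
      _ = ε := by ring
  · intro a ha
    have key : ∀ m, ∀ ξ η : H,
        ⟪η, z ((q m * a * q m) ξ)⟫_ℂ = ⟪η, (q m * a * q m) (z ξ)⟫_ℂ := by
      intro m ξ η
      set b := q m * a * q m with hb
      have hbN : b ∈ N := mul_mem (mul_mem (hq m).1 ha) (hq m).1
      have hqb : ∀ n, m ≤ n → q n * b = b := by
        intro n hn
        rw [hb, ← mul_assoc, ← mul_assoc, hmn m n hn]
      have hqq : ∀ n, m ≤ n → q m * q n = q m := by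
        intro n hn
        have h := congrArg star (hmn m n hn)
        rwa [star_mul, (hq m).2.1, (hq n).2.1] at h
      have hbq : ∀ n, m ≤ n → b * q n = b := by
        intro n hn
        rw [hb, mul_assoc, hqq n hn]
      have hc : ∀ n, m ≤ n → b * (y n * q n) = q n * y n * b := by
        intro n hn
        have h := (hy n).2.2.2 b hbN (by rw [hqb n hn, hbq n hn])
        have e1 : b * (q n * y n * q n) = b * (y n * q n) := by
          rw [mul_assoc (q n), ← mul_assoc b, hbq n hn]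
        have e2 : q n * y n * q n * b = q n * y n * b := by
          rw [mul_assoc (q n * y n), hqb n hn]
        rw [← e1, h, e2]
      have hsU : ∀ ζ : H, Tendsto (fun n => q n ζ) (U : Filter ℕ) (nhds ζ) :=
        fun ζ => (hs ζ).mono_left hU
      have l1 : Tendsto (fun n => ⟪q n η, y n (b ξ)⟫_ℂ) (U : Filter ℕ) (nhds ⟪η, z (b ξ)⟫_ℂ) :=
        inner_op (fun n => (hy n).2.1) (hlim (b ξ) η) tendsto_const_nhds (hsU η)
      have l2 : Tendsto (fun n => ⟪star b η, y n (q n ξ)⟫_ℂ) (U : Filter ℕ)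
          (nhds ⟪star b η, z ξ⟫_ℂ) :=
        inner_op (fun n => (hy n).2.1) (hlim ξ (star b η)) (hsU ξ) tendsto_const_nhds
      have he : (fun n => ⟪q n η, y n (b ξ)⟫_ℂ) =ᶠ[(U : Filter ℕ)]
          fun n => ⟪star b η, y n (q n ξ)⟫_ℂ := by
        have hev : ∀ᶠ n in (U : Filter ℕ), m ≤ n := hU (eventually_ge_atTop m)
        filter_upwards [hev] with n hn
        have h := congrArg (fun T : H →L[ℂ] H => ⟪η, T ξ⟫_ℂ) (hc n hn)
        simp only [ContinuousLinearMap.mul_apply] at h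
        rw [← pr_inner (hq n).2, ContinuousLinearMap.star_eq_adjoint,
          ContinuousLinearMap.adjoint_inner_left]
        exact h.symm
      have h3 := tendsto_nhds_unique (l1.congr' he) l2
      rw [h3, ContinuousLinearMap.star_eq_adjoint, ContinuousLinearMap.adjoint_inner_left]
    have hab : ∀ ξ η : H, Tendsto (fun m => ⟪η, (q m * a * q m) ξ⟫_ℂ) atTop
        (nhds ⟪η, a ξ⟫_ℂ) := by
      intro ξ η
      have h1 : Tendsto (fun m => ⟪q m η, a (q m ξ)⟫_ℂ) atTop (nhds ⟪η, a ξ⟫_ℂ) :=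
        (hs η).inner ((a.continuous.tendsto _).comp (hs ξ))
      refine h1.congr fun m => ?_
      rw [← pr_inner (hq m).2]
      rfl
    refine ContinuousLinearMap.ext fun ξ => ?_
    refine ext_inner_left ℂ fun η => ?_
    have t1 : Tendsto (fun m => ⟪star z η, (q m * a * q m) ξ⟫_ℂ) atTop
        (nhds ⟪star z η, a ξ⟫_ℂ) := hab ξ _
    have t2 : Tendsto (fun m => ⟪η, (q m * a * q m) (z ξ)⟫_ℂ) atTop
        (nhds ⟪η, a (z ξ)⟫_ℂ) := hab _ _
    have h4 : (fun m => ⟪star z η, (q m * a * q m) ξ⟫_ℂ) =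
        fun m => ⟪η, (q m * a * q m) (z ξ)⟫_ℂ := by
      funext m
      rw [ContinuousLinearMap.star_eq_adjoint, ContinuousLinearMap.adjoint_inner_left]
      exact key m ξ η
    rw [h4] at t1
    have h5 := tendsto_nhds_unique t1 t2
    rw [ContinuousLinearMap.star_eq_adjoint, ContinuousLinearMap.adjoint_inner_left] at h5
    exact h5

end Pool.Agent.Y797.WQ
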